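import Pool.Agent.Helper89.UB.Stmts

set_option autoImplicit false

open Finset

namespace Pool.Agent.Helper89.UB

theorem st_SHF (h1 : ST_SHX) (h2 : ST_SHC) (h3 : ST_SHE) : ST_SHF := by
  obtain ⟨n₀, h3⟩ := h3
  refine ⟨max n₀ 3, ?_⟩
  intro n hn E hE hD
  have hn0 : n₀ ≤ n := le_trans (le_max_left _ _) hn
  have hn3 : 3 ≤ n := le_trans (le_max_right _ _) hn
  obtain ⟨r, hr, hr0⟩ := h1 n E ((E.card : ℝ) / n) (fun e he => (hE e he).ge)
  refine ⟨r, hr, hr0, ?_⟩
  have hnr : (3 : ℝ) ≤ n := by exact_mod_cast hn3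
  have hlog : 0 < Real.log n := Real.log_pos (by linarith)
  have hR : 0 < 12 * Real.log n / n := by positivity
  have key := h2 n r (12 * Real.log n / n) (1 / 200) hR (by
    intro y hy
    have hy0 : y ≠ 0 := by
      intro h
      rw [h, norm_zero] at hy
      linarith
    have h4 := h3 n hn0 E hE hD y hy
    have h5 : y ^ n * PW E univ (1 / y + ((E.card : ℝ) / n : ℝ)) =
        ∑ j ∈ range (n + 1), r j * y ^ j := by
      rw [hr, mul_sum]
      refine sum_congr rfl fun j hj => ?_
      have hjn : j ≤ n := by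
        have := mem_range.1 hj
        omega
      have h6 : y ^ n = y ^ j * y ^ (n - j) := by
        rw [← pow_add]
        congr 1
        omega
      rw [h6, one_div, inv_pow]
      field_simp
    rw [h5] at h4
    exact h4)
  intro j hj1 hjn
  have h6 := key j hj1 hjn
  refine h6.trans (le_of_eq ?_)
  have h7 : (n : ℝ) / (12 * Real.log n) = (12 * Real.log n / n)⁻¹ := by
    rw [inv_div]
  rw [h7, inv_pow, div_eq_mul_inv]

end Pool.Agent.Helper89.UB
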